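import Mathlib
import Pool.Agent.H734R3.PG.Pair

/-!
# Solutions over elliptic function fields
-/

set_option autoImplicit false

namespace Pool.Agent.H734R3.EL

open PowerSeries Pool.Agent.H734R3.PG

variable {k : Type*} [Field k]

/-- the function field of an elliptic curve, with a place -/
def EllL (L : IntermediateField k (Om k)) : Prop :=
  ∃ (e1 e2 e3 u0 : k) (V : PowerSeries k), e1 ≠ e2 ∧ e1 ≠ e3 ∧ e2 ≠ e3 ∧
    V ^ 2 = (C u0 + X - C e1) * (C u0 + X - C e2) * (C u0 + X - C e3) ∧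
    L = IntermediateField.adjoin k {algebraMap (PowerSeries k) (Om k) (C u0 + X),
      algebraMap (PowerSeries k) (Om k) V}

/-- the set has a nonzero element -/
def Nt (S : Set (PowerSeries k)) : Prop := ∃ t ∈ S, t ≠ 0

theorem Nt.mono {S T : Set (PowerSeries k)} (h : Nt S) (hST : S ⊆ T) : Nt T := by
  obtain ⟨t, ht, h0⟩ := h
  exact ⟨t, hST ht, h0⟩

/-- a non-constant solution over an elliptic function field -/
def EEuclid (k : Type*) [Field k] {q : ℕ} (N : Fin q → ℕ) : Prop :=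
  ∀ d : Fin q → k, ∃ L : IntermediateField k (Om k), EllL L ∧ Nt {l | PSol L N d l}

variable [CharZero k]

theorem exists_ell {e1 e2 e3 u0 v0 : k} (h12 : e1 ≠ e2) (h13 : e1 ≠ e3) (h23 : e2 ≠ e3)
    (hv : v0 ^ 2 = (u0 - e1) * (u0 - e2) * (u0 - e3)) (hv0 : v0 ≠ 0) :
    ∃ (L : IntermediateField k (Om k)) (V : PowerSeries k), EllL L ∧ InL L (X : PowerSeries k) ∧
      InL L V ∧ constantCoeff V = v0 ∧
      V ^ 2 = (C u0 + X - C e1) * (C u0 + X - C e2) * (C u0 + X - C e3) := by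
  obtain ⟨β, hβ, hβ1⟩ := exists_sqrt (C (v0 ^ 2)⁻¹ *
    ((C u0 + X - C e1) * (C u0 + X - C e2) * (C u0 + X - C e3) : PowerSeries k)) (by
      simp only [map_mul, map_sub, map_add, PowerSeries.constantCoeff_C,
        PowerSeries.constantCoeff_X, add_zero]
      rw [← hv]
      exact inv_mul_cancel₀ (pow_ne_zero _ hv0))
  have hV : (C v0 * β) ^ 2 = (C u0 + X - C e1) * (C u0 + X - C e2) * (C u0 + X - C e3) := by
    rw [mul_pow, hβ, ← mul_assoc, ← map_pow, ← map_mul, mul_inv_cancel₀ (pow_ne_zero _ hv0),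
      map_one, one_mul]
  refine ⟨_, C v0 * β, ⟨e1, e2, e3, u0, C v0 * β, h12, h13, h23, hV, rfl⟩, ?_, ?_, ?_, hV⟩
  · have h1 : InL (IntermediateField.adjoin k {algebraMap (PowerSeries k) (Om k) (C u0 + X),
        algebraMap (PowerSeries k) (Om k) (C v0 * β)}) (C u0 + X) :=
      IntermediateField.subset_adjoin k _ (Set.mem_insert _ _)
    have h2 := h1.sub (inL_C u0)
    have h3 : (C u0 + X - C u0 : PowerSeries k) = X := by ring
    rwa [h3] at h2
  · exact IntermediateField.subset_adjoin k _ (Set.mem_insert_of_mem _ rfl)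
  · simp [hβ1]

theorem const_of_pow {P : PowerSeries k} {a : k} {N : ℕ} (hN : N ≠ 0) (ha : a ≠ 0)
    (hP : constantCoeff P = a) (h : P ^ N = C (a ^ N)) : P = C a := by
  have h1 := geom_sum₂_mul P (C a) N
  rw [h, map_pow, sub_self] at h1
  rcases mul_eq_zero.1 h1 with h2 | h2
  swap
  · exact sub_eq_zero.1 h2
  · exfalso
    have h3 := congrArg constantCoeff h2
    rw [map_sum, map_zero] at h3
    have h4 : ∀ i ∈ Finset.range N, constantCoeff (P ^ i * C a ^ (N - 1 - i)) = a ^ (N - 1) := by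
      intro i hi
      rw [map_mul, map_pow, map_pow, hP, PowerSeries.constantCoeff_C, ← pow_add]
      congr 1
      have := Finset.mem_range.1 hi
      omega
    rw [Finset.sum_congr rfl h4, Finset.sum_const, Finset.card_range, nsmul_eq_mul] at h3
    exact (mul_ne_zero (Nat.cast_ne_zero.2 hN) (pow_ne_zero _ ha)) h3

/-- reduction to the nondegenerate case -/
theorem eeuclid_pair {N0 N1 M : ℕ} (hM : M * N1 = N0)
    (H : ∀ d1 d2 : k, d1 ≠ 0 → d2 ≠ 0 → d1 ≠ d2 → ∃ L : IntermediateField k (Om k), EllL L ∧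
      Nt {l | PSol L ![N0, N1] ![d1, d2] l}) : EEuclid k ![N0, N1] := by
  intro d
  have main : ∀ d1 d2 : k, d1 ≠ 0 → d2 ≠ 0 → d1 ≠ d2 → (d 0 = 0 ∨ d 0 = d1) →
      (d 1 = 0 ∨ d 1 = d2 ∨ (d 1 = d 0 ∧ d 0 = d1)) → ∃ L : IntermediateField k (Om k),
      EllL L ∧ Nt {l | PSol L ![N0, N1] d l} := by
    intro d1 d2 h1 h2 h12 g1 g2
    obtain ⟨L, hL, hinf⟩ := H d1 d2 h1 h2 h12
    refine ⟨L, hL, hinf.mono ?_⟩
    rintro l ⟨a1, a2, a3⟩
    refine ⟨a1, a2, fun i => ?_⟩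
    obtain ⟨y1, b1, b2, b3⟩ := a3 0
    obtain ⟨y2, c1, c2, c3⟩ := a3 1
    have b3' : y1 ^ N0 = 1 + C d1 * l := b3
    have c3' : y2 ^ N1 = 1 + C d2 * l := c3
    fin_cases i
    · rcases g1 with g1 | g1
      · refine ⟨1, inL_one, by simp, ?_⟩
        show (1 : PowerSeries k) ^ N0 = 1 + C (d 0) * l
        rw [g1]
        simp
      · refine ⟨y1, b1, b2, ?_⟩
        show y1 ^ N0 = 1 + C (d 0) * l
        rw [g1, b3']
    · rcases g2 with g2 | g2 | ⟨g2, g3⟩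
      · refine ⟨1, inL_one, by simp, ?_⟩
        show (1 : PowerSeries k) ^ N1 = 1 + C (d 1) * l
        rw [g2]
        simp
      · refine ⟨y2, c1, c2, ?_⟩
        show y2 ^ N1 = 1 + C (d 1) * l
        rw [g2, c3']
      · refine ⟨y1 ^ M, b1.pow M, by rw [map_pow, b2, one_pow], ?_⟩
        show (y1 ^ M) ^ N1 = 1 + C (d 1) * l
        rw [g2, g3, ← pow_mul, hM, b3']
  have two : ∀ a : k, a ≠ 0 → 2 * a ≠ a := by
    intro a ha h
    apply ha
    linear_combination h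
  by_cases h0 : d 0 = 0
  · by_cases h1 : d 1 = 0
    · exact main 2 1 two_ne_zero one_ne_zero (by norm_num) (Or.inl h0) (Or.inl h1)
    · exact main (2 * d 1) (d 1) (mul_ne_zero two_ne_zero h1) h1 (two _ h1) (Or.inl h0)
        (Or.inr (Or.inl rfl))
  · by_cases h1 : d 1 = 0
    · exact main (d 0) (2 * d 0) h0 (mul_ne_zero two_ne_zero h0) (two _ h0).symm (Or.inr rfl)
        (Or.inl h1)
    · by_cases h2 : d 1 = d 0
      · exact main (d 0) (2 * d 0) h0 (mul_ne_zero two_ne_zero h0) (two _ h0).symm (Or.inr rfl)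
          (Or.inr (Or.inr ⟨h2, rfl⟩))
      · exact main (d 0) (d 1) h0 h1 (fun h => h2 h.symm) (Or.inr rfl) (Or.inr (Or.inl rfl))

variable [IsAlgClosed k]

theorem eeuclid1 {N : ℕ} (hN : N ≠ 0) : EEuclid k ![N] := by
  intro d
  obtain ⟨v0, hv0⟩ := IsAlgClosed.exists_pow_nat_eq (6 : k) (n := 2) (by norm_num)
  obtain ⟨L, V, hL, hX, -⟩ := exists_ell (e1 := 0) (e2 := 1) (e3 := 2) (u0 := 3) (v0 := v0)
    (by norm_num) (by norm_num) (by norm_num) (by rw [hv0]; norm_num) (by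
      rintro rfl
      norm_num at hv0)
  refine ⟨L, hL, ?_⟩
  by_cases hd : d 0 = 0
  · refine ⟨X, ⟨hX, by simp, fun i => ⟨1, inL_one, by simp, ?_⟩⟩, PowerSeries.X_ne_zero⟩
    have hi : i = 0 := Subsingleton.elim _ _
    rw [hi, hd]
    simp
  · have h1 : InL L (1 + X) := inL_one.add hX
    refine ⟨C (d 0)⁻¹ * ((1 + X) ^ N - 1), ⟨(inL_C _).mul ((h1.pow N).sub inL_one), by simp,
      fun i => ⟨1 + X, h1, by simp, ?_⟩⟩, ?_⟩
    · have hi : i = 0 := Subsingleton.elim _ _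
      rw [hi]
      show (1 + X) ^ N = 1 + C (d 0) * (C (d 0)⁻¹ * ((1 + X) ^ N - 1))
      rw [← mul_assoc, ← map_mul, mul_inv_cancel₀ hd, map_one]
      ring
    · intro h
      have h2 := congrArg (coeff 1) h
      rw [PowerSeries.coeff_C_mul, map_sub, PG.coeff_one_pow _ (by simp), map_zero] at h2
      simp [PowerSeries.coeff_one, PowerSeries.coeff_one_X, hd, hN] at h2

theorem exists_distinct (d : Fin 3 → k) : ∃ d' : Fin 3 → k, Function.Injective d' ∧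
    (∀ j, d' j ≠ 0) ∧ ∀ i, d i = 0 ∨ ∃ j, d i = d' j := by
  classical
  have hinf : Infinite k := inferInstance
  obtain ⟨t, ht, hc⟩ := Infinite.exists_superset_card_eq (insert 0 (Finset.univ.image d)) 4 (by
    refine (Finset.card_insert_le _ _).trans ?_
    have := Finset.card_image_le (s := (Finset.univ : Finset (Fin 3))) (f := d)
    simp at this
    omega)
  have h0 : (0 : k) ∈ t := ht (Finset.mem_insert_self _ _)
  have hc' : (t.erase 0).card = 3 := by rw [Finset.card_erase_of_mem h0, hc]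
  let φ := (t.erase 0).equivFinOfCardEq hc'
  refine ⟨fun j => (φ.symm j : k), fun i j h => φ.symm.injective (Subtype.ext h), fun j => ?_,
    fun i => ?_⟩
  · exact (Finset.mem_erase.1 (φ.symm j).2).1
  · by_cases hi : d i = 0
    · exact Or.inl hi
    · refine Or.inr ⟨φ ⟨d i, Finset.mem_erase.2 ⟨hi, ht (by simp)⟩⟩, ?_⟩
      simp

theorem eeuclid222 : EEuclid k ![2, 2, 2] := by
  classical
  intro d0
  obtain ⟨d, hdi, hdne, hd0⟩ := exists_distinct d0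
  have ha : ∀ i, ∃ a : k, a ^ 2 = (d i)⁻¹ := fun i => IsAlgClosed.exists_pow_nat_eq _ (by norm_num)
  choose a ha using ha
  have hda : ∀ i, d i * a i ^ 2 = 1 := fun i => by rw [ha, mul_inv_cancel₀ (hdne i)]
  have ha0 : ∀ i, a i ≠ 0 := by
    intro i h
    have := hda i
    rw [h] at this
    simp at this
  have hsq : ∀ i j, i ≠ j → a i ^ 2 ≠ a j ^ 2 := by
    intro i j hij h
    rw [ha, ha] at h
    exact hij (hdi (inv_injective h))
  have hadd : ∀ i j, i ≠ j → a i + a j ≠ 0 := by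
    intro i j hij h
    apply hsq i j hij
    linear_combination (a i - a j) * h
  obtain ⟨a1, h1⟩ : ∃ a1, a1 = a 0 := ⟨_, rfl⟩
  obtain ⟨a2, h2⟩ : ∃ a2, a2 = a 1 := ⟨_, rfl⟩
  obtain ⟨a3, h3⟩ : ∃ a3, a3 = a 2 := ⟨_, rfl⟩
  have n12 : a1 + a2 ≠ 0 := by rw [h1, h2]; exact hadd 0 1 (by decide)
  have n13 : a1 + a3 ≠ 0 := by rw [h1, h3]; exact hadd 0 2 (by decide)
  have n23 : a2 + a3 ≠ 0 := by rw [h2, h3]; exact hadd 1 2 (by decide)
  have m12 : a1 ^ 2 ≠ a2 ^ 2 := by rw [h1, h2]; exact hsq 0 1 (by decide)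
  have m13 : a1 ^ 2 ≠ a3 ^ 2 := by rw [h1, h3]; exact hsq 0 2 (by decide)
  have m23 : a2 ^ 2 ≠ a3 ^ 2 := by rw [h2, h3]; exact hsq 1 2 (by decide)
  have z1 : a1 ≠ 0 := by rw [h1]; exact ha0 0
  have z2 : a2 ≠ 0 := by rw [h2]; exact ha0 1
  have z3 : a3 ≠ 0 := by rw [h3]; exact ha0 2
  obtain ⟨U0, hU0⟩ : ∃ U0, U0 = a1 * a2 + a1 * a3 + a2 * a3 := ⟨_, rfl⟩
  obtain ⟨V0, hV0⟩ : ∃ V0, V0 = (a1 + a2) * (a1 + a3) * (a2 + a3) := ⟨_, rfl⟩
  have hV00 : V0 ≠ 0 := by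
    rw [hV0]
    exact mul_ne_zero (mul_ne_zero n12 n13) n23
  obtain ⟨L, V, hL, hXL, hVL, hVc, hV⟩ := exists_ell (e1 := -a1 ^ 2) (e2 := -a2 ^ 2)
    (e3 := -a3 ^ 2) (u0 := U0) (v0 := V0) (fun h => m12 (neg_injective h))
    (fun h => m13 (neg_injective h)) (fun h => m23 (neg_injective h))
    (by rw [hU0, hV0]; ring) hV00
  have hC2 : (C (2 : k) : PowerSeries k) = 2 := map_ofNat C 2
  obtain ⟨U, hU⟩ : ∃ U : PowerSeries k, U = C U0 + X := ⟨_, rfl⟩
  have hUL : InL L U := by rw [hU]; exact (inL_C _).add hXL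
  have hUc : constantCoeff U = U0 := by simp [hU]
  have hUd : coeff 1 U = 1 := by
    rw [hU, map_add, PowerSeries.coeff_C, PowerSeries.coeff_one_X]
    simp
  simp only [map_neg, map_pow, sub_neg_eq_add] at hV
  rw [← hU] at hV
  have hVi0 : constantCoeff (C 2 * V) ≠ 0 := by
    rw [map_mul, hVc, PowerSeries.constantCoeff_C]
    exact mul_ne_zero two_ne_zero hV00
  obtain ⟨W, hW⟩ : ∃ W : PowerSeries k, W = (C 2 * V)⁻¹ := ⟨_, rfl⟩
  have hWL : InL L W := by rw [hW]; exact ((inL_C _).mul hVL).inv hVi0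
  have hVW : C 2 * V * W = 1 := by rw [hW]; exact PowerSeries.mul_inv_cancel _ hVi0
  have hWc : 2 * V0 * constantCoeff W = 1 := by
    have := congrArg constantCoeff hVW
    rw [map_mul, map_mul, hVc, PowerSeries.constantCoeff_C, map_one] at this
    exact this
  rw [hC2] at hVW
  have hVW2 : 4 * V ^ 2 * W ^ 2 = 1 := by
    linear_combination (2 * V * W + 1) * hVW
  obtain ⟨b1, hb1⟩ : ∃ b1 : PowerSeries k, b1 = C a1 := ⟨_, rfl⟩
  obtain ⟨b2, hb2⟩ : ∃ b2 : PowerSeries k, b2 = C a2 := ⟨_, rfl⟩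
  obtain ⟨b3, hb3⟩ : ∃ b3 : PowerSeries k, b3 = C a3 := ⟨_, rfl⟩
  rw [← hb1, ← hb2, ← hb3] at hV
  have hbL : InL L b1 ∧ InL L b2 ∧ InL L b3 := by
    rw [hb1, hb2, hb3]
    exact ⟨inL_C _, inL_C _, inL_C _⟩
  obtain ⟨n1, hn1⟩ : ∃ n1 : PowerSeries k, n1 = (U + b1 ^ 2) ^ 2 -
    (b2 ^ 2 - b1 ^ 2) * (b3 ^ 2 - b1 ^ 2) := ⟨_, rfl⟩
  obtain ⟨n2, hn2⟩ : ∃ n2 : PowerSeries k, n2 = (U + b2 ^ 2) ^ 2 -
    (b1 ^ 2 - b2 ^ 2) * (b3 ^ 2 - b2 ^ 2) := ⟨_, rfl⟩
  obtain ⟨n3, hn3⟩ : ∃ n3 : PowerSeries k, n3 = (U + b3 ^ 2) ^ 2 -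
    (b1 ^ 2 - b3 ^ 2) * (b2 ^ 2 - b3 ^ 2) := ⟨_, rfl⟩
  have e12 : n1 ^ 2 - n2 ^ 2 = (b1 ^ 2 - b2 ^ 2) * (4 * V ^ 2) := by
    rw [hn1, hn2, hV]
    ring
  have e13 : n1 ^ 2 - n3 ^ 2 = (b1 ^ 2 - b3 ^ 2) * (4 * V ^ 2) := by
    rw [hn1, hn3, hV]
    ring
  have hn1L : InL L n1 := by
    rw [hn1]
    exact ((hUL.add (hbL.1.pow 2)).pow 2).sub (((hbL.2.1.pow 2).sub (hbL.1.pow 2)).mul
      ((hbL.2.2.pow 2).sub (hbL.1.pow 2)))
  have hn2L : InL L n2 := by
    rw [hn2]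
    exact ((hUL.add (hbL.2.1.pow 2)).pow 2).sub (((hbL.1.pow 2).sub (hbL.2.1.pow 2)).mul
      ((hbL.2.2.pow 2).sub (hbL.2.1.pow 2)))
  have hn3L : InL L n3 := by
    rw [hn3]
    exact ((hUL.add (hbL.2.2.pow 2)).pow 2).sub (((hbL.1.pow 2).sub (hbL.2.2.pow 2)).mul
      ((hbL.2.1.pow 2).sub (hbL.2.2.pow 2)))
  have hc1 : constantCoeff (n1 * W) = a1 := by
    rw [map_mul, hn1]
    simp only [map_sub, map_mul, map_pow, map_add, hUc, hb1, hb2, hb3, PowerSeries.constantCoeff_C]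
    rw [hU0]
    rw [hV0] at hWc
    linear_combination a1 * hWc
  have hc2 : constantCoeff (n2 * W) = a2 := by
    rw [map_mul, hn2]
    simp only [map_sub, map_mul, map_pow, map_add, hUc, hb1, hb2, hb3, PowerSeries.constantCoeff_C]
    rw [hU0]
    rw [hV0] at hWc
    linear_combination a2 * hWc
  have hc3 : constantCoeff (n3 * W) = a3 := by
    rw [map_mul, hn3]
    simp only [map_sub, map_mul, map_pow, map_add, hUc, hb1, hb2, hb3, PowerSeries.constantCoeff_C]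
    rw [hU0]
    rw [hV0] at hWc
    linear_combination a3 * hWc
  -- the derivative at the place
  have hV1 : coeff 1 V = a1 + a2 + a3 := by
    have h5 := congrArg (coeff 1) hV
    have hbd : ∀ b : k, coeff 1 (C b ^ 2 : PowerSeries k) = 0 := by
      intro b
      rw [← map_pow, PowerSeries.coeff_C]
      simp
    rw [pow_two, coeff_one_mul', coeff_one_mul', coeff_one_mul'] at h5
    simp only [map_add, map_mul, map_pow, hb1, hb2, hb3, PowerSeries.constantCoeff_C, hUc, hUd,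
      hVc] at h5
    rw [hbd, hbd, hbd] at h5
    have h6 : 2 * V0 * coeff 1 V = 2 * V0 * (a1 + a2 + a3) := by
      rw [hU0] at h5
      rw [hV0] at h5 ⊢
      linear_combination h5
    exact mul_left_cancel₀ (mul_ne_zero two_ne_zero hV00) h6
  have hlne : (n1 * W) ^ 2 - b1 ^ 2 ≠ 0 := by
    intro h0
    have h5 : n1 * W = C a1 := by
      apply const_of_pow two_ne_zero z1 hc1
      rw [sub_eq_zero.1 h0, hb1, map_pow]
    have h6 : n1 = C a1 * (C 2 * V) := by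
      rw [hC2]
      calc n1 = n1 * (2 * V * W) := by rw [hVW, mul_one]
        _ = (n1 * W) * (2 * V) := by ring
        _ = _ := by rw [h5]
    have h7 := congrArg (coeff 1) h6
    rw [PowerSeries.coeff_C_mul, PowerSeries.coeff_C_mul, hV1, hn1, map_sub] at h7
    have h8 : coeff 1 ((U + b1 ^ 2) ^ 2) = 2 * (U0 + a1 ^ 2) := by
      rw [pow_two, coeff_one_mul', map_add, map_add, hUd, hUc, hb1, ← map_pow, PowerSeries.coeff_C,
        PowerSeries.constantCoeff_C]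
      simp
      ring
    have h9 : coeff 1 ((b2 ^ 2 - b1 ^ 2) * (b3 ^ 2 - b1 ^ 2)) = 0 := by
      rw [hb1, hb2, hb3, ← map_pow, ← map_pow, ← map_pow, ← map_sub, ← map_sub, ← map_mul,
        PowerSeries.coeff_C]
      simp
    rw [h8, h9, hU0] at h7
    have h10 : 2 * (a2 * a3) = 0 := by linear_combination h7
    exact mul_ne_zero two_ne_zero (mul_ne_zero z2 z3) h10
  have hC : ∀ a : k, a ≠ 0 → ∀ x : k, x * a ^ 2 = 1 → (C a⁻¹ : PowerSeries k) ^ 2 = C x := by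
    intro a ha x hx
    rw [← map_pow]
    congr 1
    field_simp
    rw [mul_comm]
    exact hx.symm
  have hCC : ∀ a : k, ∀ x : k, x * a ^ 2 = 1 → (C x : PowerSeries k) * C a ^ 2 = 1 := by
    intro a x hx
    rw [← map_pow, ← map_mul, hx, map_one]
  have hd1 : d 0 * a1 ^ 2 = 1 := by rw [h1]; exact hda 0
  have hd2 : d 1 * a2 ^ 2 = 1 := by rw [h2]; exact hda 1
  have hd3 : d 2 * a3 ^ 2 = 1 := by rw [h3]; exact hda 2
  refine ⟨L, hL, (n1 * W) ^ 2 - b1 ^ 2, ⟨((hn1L.mul hWL).pow 2).sub (hbL.1.pow 2), ?_,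
    fun i => ?_⟩, hlne⟩
  · rw [map_sub, map_pow, hc1, hb1, map_pow, PowerSeries.constantCoeff_C, sub_self]
  have hsol : ∀ j, ∃ y, InL L y ∧ constantCoeff y = 1 ∧
      y ^ 2 = 1 + C (d j) * ((n1 * W) ^ 2 - b1 ^ 2) := by
    intro j
    fin_cases j
    · refine ⟨C a1⁻¹ * (n1 * W), (inL_C _).mul (hn1L.mul hWL), ?_, ?_⟩
      · rw [map_mul, hc1, PowerSeries.constantCoeff_C, inv_mul_cancel₀ z1]
      · show (C a1⁻¹ * (n1 * W)) ^ 2 = 1 + C (d 0) * ((n1 * W) ^ 2 - b1 ^ 2)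
        rw [mul_pow, hC a1 z1 _ hd1, hb1]
        linear_combination hCC a1 _ hd1
    · refine ⟨C a2⁻¹ * (n2 * W), (inL_C _).mul (hn2L.mul hWL), ?_, ?_⟩
      · rw [map_mul, hc2, PowerSeries.constantCoeff_C, inv_mul_cancel₀ z2]
      · show (C a2⁻¹ * (n2 * W)) ^ 2 = 1 + C (d 1) * ((n1 * W) ^ 2 - b1 ^ 2)
        have g := hCC a2 _ hd2
        rw [← hb2] at g
        rw [mul_pow, hC a2 z2 _ hd2]
        linear_combination g - C (d 1) * W ^ 2 * e12 - C (d 1) * (b1 ^ 2 - b2 ^ 2) * hVW2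
    · refine ⟨C a3⁻¹ * (n3 * W), (inL_C _).mul (hn3L.mul hWL), ?_, ?_⟩
      · rw [map_mul, hc3, PowerSeries.constantCoeff_C, inv_mul_cancel₀ z3]
      · show (C a3⁻¹ * (n3 * W)) ^ 2 = 1 + C (d 2) * ((n1 * W) ^ 2 - b1 ^ 2)
        have g := hCC a3 _ hd3
        rw [← hb3] at g
        rw [mul_pow, hC a3 z3 _ hd3]
        linear_combination g - C (d 2) * W ^ 2 * e13 - C (d 2) * (b1 ^ 2 - b3 ^ 2) * hVW2
  have h222 : (![2, 2, 2] : Fin 3 → ℕ) i = 2 := by fin_cases i <;> rfl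
  rcases hd0 i with h | ⟨j, h⟩
  · refine ⟨1, inL_one, by simp, ?_⟩
    rw [h]
    simp
  · obtain ⟨y, hy1, hy2, hy3⟩ := hsol j
    refine ⟨y, hy1, hy2, ?_⟩
    rw [h222, h]
    exact hy3

theorem eeuclid33 : EEuclid k ![3, 3] := by
  classical
  refine eeuclid_pair (M := 1) (by norm_num) fun d1 d2 h1 h2 h12 => ?_
  obtain ⟨s, hs⟩ := IsAlgClosed.exists_pow_nat_eq (-3 : k) (n := 2) (by norm_num)
  obtain ⟨ω, hω⟩ : ∃ ω : k, ω = (-1 + s) / 2 := ⟨_, rfl⟩
  have hω2 : ω ^ 2 + ω + 1 = 0 := by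
    rw [hω]
    linear_combination hs / 4
  have hω3 : ω ^ 3 = 1 := by linear_combination (ω - 1) * hω2
  have hω1 : ω ≠ 1 := by
    intro h
    rw [h] at hω2
    norm_num at hω2
  obtain ⟨X0, Y0, hX0, hY0, hXY⟩ : ∃ X0 Y0 : k, X0 ^ 3 = d1⁻¹ ∧ Y0 ^ 3 = -d2⁻¹ ∧ X0 ≠ Y0 := by
    obtain ⟨X0, hX0⟩ := IsAlgClosed.exists_pow_nat_eq d1⁻¹ (n := 3) (by norm_num)
    obtain ⟨Y0, hY0⟩ := IsAlgClosed.exists_pow_nat_eq (-d2⁻¹) (n := 3) (by norm_num)
    by_cases h : X0 = Y0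
    · refine ⟨ω * X0, Y0, by rw [mul_pow, hω3, hX0, one_mul], hY0, fun h' => ?_⟩
      have hX00 : X0 ≠ 0 := by
        rintro rfl
        have : (0 : k) = d1⁻¹ := by rw [← hX0]; norm_num
        exact inv_ne_zero h1 this.symm
      apply hω1
      rw [← h] at h'
      exact mul_right_cancel₀ hX00 (by rw [h', one_mul])
    · exact ⟨X0, Y0, hX0, hY0, h⟩
  have hX00 : X0 ≠ 0 := by
    rintro rfl
    have : (0 : k) = d1⁻¹ := by rw [← hX0]; norm_num
    exact inv_ne_zero h1 this.symm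
  have hY00 : Y0 ≠ 0 := by
    rintro rfl
    have : (0 : k) = -d2⁻¹ := by rw [← hY0]; norm_num
    exact neg_ne_zero.2 (inv_ne_zero h2) this.symm
  obtain ⟨c, hc⟩ : ∃ c : k, c = X0 ^ 3 + Y0 ^ 3 := ⟨_, rfl⟩
  have hc0 : c ≠ 0 := by
    rw [hc, hX0, hY0]
    intro h
    apply h12
    have : d1⁻¹ = d2⁻¹ := by linear_combination h
    exact inv_injective this
  have hS : X0 + Y0 ≠ 0 := by
    intro h
    apply hc0
    rw [hc]
    linear_combination (X0 ^ 2 - X0 * Y0 + Y0 ^ 2) * h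
  obtain ⟨U0, hU0⟩ : ∃ U0 : k, U0 = 12 * c / (X0 + Y0) := ⟨_, rfl⟩
  obtain ⟨V0, hV0⟩ : ∃ V0 : k, V0 = 36 * c * (X0 - Y0) / (X0 + Y0) := ⟨_, rfl⟩
  have hU00 : U0 ≠ 0 := by
    rw [hU0]
    exact div_ne_zero (mul_ne_zero (by norm_num) hc0) hS
  have hV00 : V0 ≠ 0 := by
    rw [hV0]
    exact div_ne_zero (mul_ne_zero (mul_ne_zero (by norm_num) hc0) (sub_ne_zero.2 hXY)) hS
  have hUV : V0 ^ 2 = U0 ^ 3 - 432 * c ^ 2 := by
    rw [hU0, hV0, hc]
    field_simp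
    ring
  obtain ⟨ρ, hρ⟩ := IsAlgClosed.exists_pow_nat_eq (432 * c ^ 2) (n := 3) (by norm_num)
  have hprod : (U0 - ρ) * (U0 - ω * ρ) * (U0 - ω ^ 2 * ρ) = V0 ^ 2 := by
    rw [hUV, ← hρ]
    linear_combination (-(U0) ^ 2 * ρ + ρ ^ 2 * U0 * ω - ρ ^ 3 * (ω - 1)) * hω2
  have hg : (U0 - ρ) ≠ 0 ∧ (U0 - ω * ρ) ≠ 0 ∧ (U0 - ω ^ 2 * ρ) ≠ 0 := by
    have h3 : (U0 - ρ) * (U0 - ω * ρ) * (U0 - ω ^ 2 * ρ) ≠ 0 := by
      rw [hprod]
      exact pow_ne_zero _ hV00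
    exact ⟨left_ne_zero_of_mul (left_ne_zero_of_mul h3),
      right_ne_zero_of_mul (left_ne_zero_of_mul h3), right_ne_zero_of_mul h3⟩
  have hρ0 : ρ ≠ 0 := by
    rintro rfl
    apply hc0
    have h5 : (432 : k) * c ^ 2 = 0 := by rw [← hρ]; norm_num
    exact pow_eq_zero_iff two_ne_zero |>.1 ((mul_eq_zero.1 h5).resolve_left (by norm_num))
  have hω0 : ω ≠ 0 := by
    rintro rfl
    norm_num at hω2
  obtain ⟨L, V, hL, hXL, hVL, hVc, hV⟩ := exists_ell (e1 := ρ) (e2 := ω * ρ) (e3 := ω ^ 2 * ρ)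
    (u0 := U0) (v0 := V0) (fun h => hω1 (mul_right_cancel₀ hρ0 (by rw [← h, one_mul])))
    (fun h => by
      have h5 : ω ^ 2 = 1 := mul_right_cancel₀ hρ0 (by rw [← h, one_mul])
      apply hω1
      have h6 : ω = -2 := by linear_combination hω2 - h5
      rw [h6] at h5
      norm_num at h5)
    (fun h => by
      have h5 : ω ^ 2 = ω := mul_right_cancel₀ hρ0 h.symm
      apply hω1
      exact mul_left_cancel₀ hω0 (by rw [← pow_two, h5, mul_one]))
    hprod.symm hV00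
  refine ⟨L, hL, ?_⟩
  have hCi : ∀ g : k, g ≠ 0 → (C g : PowerSeries k) * C g⁻¹ = 1 := fun g hg => by
    rw [← map_mul, mul_inv_cancel₀ hg, map_one]
  obtain ⟨U, hU⟩ : ∃ U : PowerSeries k, U = C U0 + X := ⟨_, rfl⟩
  have hVU : V ^ 2 = U ^ 3 - C (432 * c ^ 2) := by
    have f5 : (C ω : PowerSeries k) ^ 2 + C ω + 1 = 0 := by
      have := congrArg (C : k → PowerSeries k) hω2
      simpa using this
    rw [hV, ← hU, ← hρ, map_pow, map_mul, map_mul, map_pow]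
    linear_combination (-U ^ 2 * C ρ + C ρ ^ 2 * U * C ω - C ρ ^ 3 * (C ω - 1)) * f5
  have hUc : constantCoeff U = U0 := by simp [hU]
  have hUL : InL L U := by rw [hU]; exact (inL_C _).add hXL
  have hDc : constantCoeff (C 6 * U) ≠ 0 := by
    rw [map_mul, hUc]
    simpa using mul_ne_zero (by norm_num : (6 : k) ≠ 0) hU00
  obtain ⟨D, hD⟩ : ∃ D : PowerSeries k, D = (C 6 * U)⁻¹ := ⟨_, rfl⟩
  have hDU : C 6 * U * D = 1 := by
    rw [hD]
    exact PowerSeries.mul_inv_cancel _ hDc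
  have hDL : InL L D := by
    rw [hD]
    exact ((inL_C _).mul hUL).inv hDc
  have hDc' : constantCoeff D = (6 * U0)⁻¹ := by
    have := congrArg constantCoeff hDU
    rw [map_mul, map_mul, hUc, map_one, PowerSeries.constantCoeff_C] at this
    exact eq_inv_of_mul_eq_one_right this
  obtain ⟨P, hP⟩ : ∃ P : PowerSeries k, P = (C (36 * c) + V) * D := ⟨_, rfl⟩
  obtain ⟨Q, hQ⟩ : ∃ Q : PowerSeries k, Q = (C (36 * c) - V) * D := ⟨_, rfl⟩
  have hPL : InL L P := by rw [hP]; exact ((inL_C _).add hVL).mul hDL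
  have hQL : InL L Q := by rw [hQ]; exact ((inL_C _).sub hVL).mul hDL
  have hPc : constantCoeff P = X0 := by
    rw [hP, map_mul, map_add, hVc, hDc', PowerSeries.constantCoeff_C, hU0, hV0]
    field_simp
    ring
  have hQc : constantCoeff Q = Y0 := by
    rw [hQ, map_mul, map_sub, hVc, hDc', PowerSeries.constantCoeff_C, hU0, hV0]
    field_simp
    ring
  have h6 : (C 6 : PowerSeries k) = 6 := map_ofNat C 6
  have h36 : (C (36 * c) : PowerSeries k) = 36 * C c := by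
    rw [map_mul]
    congr 1
  have h432 : (C (432 * c ^ 2) : PowerSeries k) = 432 * C c ^ 2 := by
    rw [map_mul, map_pow]
    congr 1
  have h12' : (C (12 * c) : PowerSeries k) = 12 * C c := by
    rw [map_mul]
    congr 1
  rw [h6] at hDU
  rw [h432] at hVU
  have hsum : P ^ 3 + Q ^ 3 = C c := by
    rw [hP, hQ, h36]
    have g1 : (6 * U * D) ^ 3 = 1 := by rw [hDU, one_pow]
    linear_combination (216 * C c * D ^ 3) * hVU + C c * g1
  refine ⟨P ^ 3 - C d1⁻¹, ⟨(hPL.pow 3).sub (inL_C _), ?_, fun i => ?_⟩, ?_⟩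
  · rw [map_sub, map_pow, hPc, PowerSeries.constantCoeff_C, hX0, sub_self]
  · have hCd1 : (C d1 : PowerSeries k) * C d1⁻¹ = 1 := hCi _ h1
    have hCd2 : (C d2 : PowerSeries k) * C d2⁻¹ = 1 := hCi _ h2
    fin_cases i
    · refine ⟨C X0⁻¹ * P, (inL_C _).mul hPL, ?_, ?_⟩
      · rw [map_mul, hPc, PowerSeries.constantCoeff_C, inv_mul_cancel₀ hX00]
      · show (C X0⁻¹ * P) ^ 3 = 1 + C d1 * (P ^ 3 - C d1⁻¹)
        have g1 : (C X0⁻¹ : PowerSeries k) ^ 3 = C d1 := by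
          rw [← map_pow, inv_pow, hX0, inv_inv]
        rw [mul_pow, g1]
        linear_combination hCd1
    · refine ⟨C Y0⁻¹ * Q, (inL_C _).mul hQL, ?_, ?_⟩
      · rw [map_mul, hQc, PowerSeries.constantCoeff_C, inv_mul_cancel₀ hY00]
      · show (C Y0⁻¹ * Q) ^ 3 = 1 + C d2 * (P ^ 3 - C d1⁻¹)
        have g1 : (C Y0⁻¹ : PowerSeries k) ^ 3 = -C d2 := by
          rw [← map_pow, inv_pow, hY0, inv_neg, inv_inv, map_neg]
        have g2 : (C c : PowerSeries k) = C d1⁻¹ - C d2⁻¹ := by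
          rw [hc, hX0, hY0, map_add, map_neg]
          ring
        rw [mul_pow, g1]
        linear_combination (-C d2) * hsum - C d2 * g2 + hCd2
  · intro h0
    have g0 : P = C X0 := const_of_pow three_ne_zero hX00 hPc (by
      rw [hX0]
      exact sub_eq_zero.1 h0)
    have g1 : Q = C Y0 := const_of_pow three_ne_zero hY00 hQc (by
      have g2 : Q ^ 3 = C c - P ^ 3 := by rw [← hsum]; ring
      rw [g2, sub_eq_zero.1 h0, hc, hX0, hY0, map_add]
      ring)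
    have g2 : U * (P + Q) = 12 * C c := by
      rw [hP, hQ, h36]
      linear_combination (12 * C c) * hDU
    rw [g0, g1, ← map_add, ← h12', mul_comm] at g2
    have g3 := congrArg (coeff 1) g2
    rw [PowerSeries.coeff_C_mul, PowerSeries.coeff_C, hU, map_add, PowerSeries.coeff_C,
      PowerSeries.coeff_one_X] at g3
    simp at g3
    exact hS g3

theorem eeuclid42 : EEuclid k ![4, 2] := by
  classical
  refine eeuclid_pair (M := 2) (by norm_num) fun d1 d2 h1 h2 h12 => ?_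
  obtain ⟨Y0, hY0⟩ := IsAlgClosed.exists_pow_nat_eq d1⁻¹ (n := 4) (by norm_num)
  obtain ⟨Z0, hZ0⟩ := IsAlgClosed.exists_pow_nat_eq d2⁻¹ (n := 2) (by norm_num)
  have hY00 : Y0 ≠ 0 := by
    rintro rfl
    have : (0 : k) = d1⁻¹ := by rw [← hY0]; norm_num
    exact inv_ne_zero h1 this.symm
  have hZ00 : Z0 ≠ 0 := by
    rintro rfl
    have : (0 : k) = d2⁻¹ := by rw [← hZ0]; norm_num
    exact inv_ne_zero h2 this.symm
  obtain ⟨c, hc⟩ : ∃ c : k, c = Z0 ^ 2 - Y0 ^ 4 := ⟨_, rfl⟩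
  have hc0 : c ≠ 0 := by
    rw [hc, hY0, hZ0]
    intro h
    apply h12
    have : d1⁻¹ = d2⁻¹ := by linear_combination -h
    exact inv_injective this
  obtain ⟨U0, hU0⟩ : ∃ U0 : k, U0 = 2 * (Z0 + Y0 ^ 2) := ⟨_, rfl⟩
  obtain ⟨V0, hV0⟩ : ∃ V0 : k, V0 = 2 * U0 * Y0 := ⟨_, rfl⟩
  have hU00 : U0 ≠ 0 := by
    rw [hU0]
    intro h
    apply hc0
    rw [hc]
    linear_combination (Z0 - Y0 ^ 2) / 2 * h
  have hV00 : V0 ≠ 0 := by
    rw [hV0]
    exact mul_ne_zero (mul_ne_zero two_ne_zero hU00) hY00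
  have hUV : V0 ^ 2 = U0 ^ 3 - 4 * c * U0 := by
    rw [hV0, hU0, hc]
    ring
  obtain ⟨γ, hγ⟩ := IsAlgClosed.exists_pow_nat_eq c (n := 2) (by norm_num)
  have hprod : U0 * (U0 - 2 * γ) * (U0 + 2 * γ) = V0 ^ 2 := by
    rw [hUV, ← hγ]
    ring
  have hg : U0 ≠ 0 ∧ (U0 - 2 * γ) ≠ 0 ∧ (U0 + 2 * γ) ≠ 0 := by
    have h3 : U0 * (U0 - 2 * γ) * (U0 + 2 * γ) ≠ 0 := by
      rw [hprod]
      exact pow_ne_zero _ hV00
    exact ⟨left_ne_zero_of_mul (left_ne_zero_of_mul h3),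
      right_ne_zero_of_mul (left_ne_zero_of_mul h3), right_ne_zero_of_mul h3⟩
  have hγ0 : γ ≠ 0 := by
    rintro rfl
    apply hc0
    rw [← hγ]
    norm_num
  obtain ⟨L, V, hL, hXL, hVL, hVc, hV⟩ := exists_ell (e1 := 0) (e2 := 2 * γ) (e3 := -(2 * γ))
    (u0 := U0) (v0 := V0) (fun h => mul_ne_zero two_ne_zero hγ0 h.symm)
    (fun h => mul_ne_zero two_ne_zero hγ0 (neg_eq_zero.1 h.symm))
    (fun h => mul_ne_zero two_ne_zero hγ0 (by
      have h5 : 2 * (2 * γ) = 0 := by linear_combination h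
      exact (mul_eq_zero.1 h5).resolve_left two_ne_zero))
    (by rw [← hprod]; ring) hV00
  refine ⟨L, hL, ?_⟩
  have hCi : ∀ g : k, g ≠ 0 → (C g : PowerSeries k) * C g⁻¹ = 1 := fun g hg => by
    rw [← map_mul, mul_inv_cancel₀ hg, map_one]
  have hC2 : (C (2 : k) : PowerSeries k) = 2 := map_ofNat C 2
  obtain ⟨U, hU⟩ : ∃ U : PowerSeries k, U = C U0 + X := ⟨_, rfl⟩
  have hVU : V ^ 2 = U ^ 3 - 4 * C c * U := by
    rw [hV, ← hU, ← hγ, map_pow, map_zero, map_neg, map_mul, hC2]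
    ring
  have hUc : constantCoeff U = U0 := by simp [hU]
  have hUL : InL L U := by rw [hU]; exact (inL_C _).add hXL
  have hDc : constantCoeff (C 2 * U) ≠ 0 := by
    rw [map_mul, hUc]
    simpa using mul_ne_zero (two_ne_zero : (2 : k) ≠ 0) hU00
  obtain ⟨D, hD⟩ : ∃ D : PowerSeries k, D = (C 2 * U)⁻¹ := ⟨_, rfl⟩
  have hDU : C 2 * U * D = 1 := by
    rw [hD]
    exact PowerSeries.mul_inv_cancel _ hDc
  have hDL : InL L D := by
    rw [hD]
    exact ((inL_C _).mul hUL).inv hDc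
  have hDc' : constantCoeff D = (2 * U0)⁻¹ := by
    have := congrArg constantCoeff hDU
    rw [map_mul, map_mul, hUc, map_one, PowerSeries.constantCoeff_C] at this
    exact eq_inv_of_mul_eq_one_right this
  rw [hC2] at hDU
  obtain ⟨P, hP⟩ : ∃ P : PowerSeries k, P = V * D := ⟨_, rfl⟩
  obtain ⟨Q, hQ⟩ : ∃ Q : PowerSeries k, Q = C 2⁻¹ * U - P ^ 2 := ⟨_, rfl⟩
  have hPL : InL L P := by rw [hP]; exact hVL.mul hDL
  have hQL : InL L Q := by rw [hQ]; exact ((inL_C _).mul hUL).sub (hPL.pow 2)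
  have hPc : constantCoeff P = Y0 := by
    rw [hP, map_mul, hVc, hDc', hV0]
    field_simp
  have hQc : constantCoeff Q = Z0 := by
    rw [hQ, map_sub, map_mul, map_pow, hUc, hPc, PowerSeries.constantCoeff_C, hU0]
    field_simp
    ring
  have h22 : (2 : PowerSeries k) * C 2⁻¹ = 1 := by
    rw [← hC2]
    exact hCi 2 two_ne_zero
  have hQ2 : 2 * (Q + P ^ 2) = U := by
    rw [hQ]
    linear_combination U * h22
  -- `4 U P ^ 2 = U ^ 2 - 4 c`
  have hUP : 4 * U * P ^ 2 = U ^ 2 - 4 * C c := by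
    have hU0' : U ≠ 0 := by
      intro h
      rw [h] at hUc
      simp at hUc
      exact hU00 hUc.symm
    apply mul_left_cancel₀ hU0'
    rw [hP]
    linear_combination hVU + V ^ 2 * (2 * U * D + 1) * hDU
  have hsum : Q ^ 2 = P ^ 4 + C c := by
    have h4 : (4 : PowerSeries k) ≠ 0 := by
      intro h
      have := congrArg constantCoeff h
      rw [show (4 : PowerSeries k) = C 4 from (map_ofNat C 4).symm, PowerSeries.constantCoeff_C,
        map_zero] at this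
      norm_num at this
    apply mul_left_cancel₀ h4
    have h5 : 2 * Q = U - 2 * P ^ 2 := by linear_combination hQ2
    linear_combination (2 * Q + U - 2 * P ^ 2) * h5 - hUP
  refine ⟨P ^ 4 - C d1⁻¹, ⟨(hPL.pow 4).sub (inL_C _), ?_, fun i => ?_⟩, ?_⟩
  · rw [map_sub, map_pow, hPc, PowerSeries.constantCoeff_C, hY0, sub_self]
  · have hCd1 : (C d1 : PowerSeries k) * C d1⁻¹ = 1 := hCi _ h1
    have hCd2 : (C d2 : PowerSeries k) * C d2⁻¹ = 1 := hCi _ h2
    fin_cases i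
    · refine ⟨C Y0⁻¹ * P, (inL_C _).mul hPL, ?_, ?_⟩
      · rw [map_mul, hPc, PowerSeries.constantCoeff_C, inv_mul_cancel₀ hY00]
      · show (C Y0⁻¹ * P) ^ 4 = 1 + C d1 * (P ^ 4 - C d1⁻¹)
        have g1 : (C Y0⁻¹ : PowerSeries k) ^ 4 = C d1 := by
          rw [← map_pow, inv_pow, hY0, inv_inv]
        rw [mul_pow, g1]
        linear_combination hCd1
    · refine ⟨C Z0⁻¹ * Q, (inL_C _).mul hQL, ?_, ?_⟩
      · rw [map_mul, hQc, PowerSeries.constantCoeff_C, inv_mul_cancel₀ hZ00]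
      · show (C Z0⁻¹ * Q) ^ 2 = 1 + C d2 * (P ^ 4 - C d1⁻¹)
        have g1 : (C Z0⁻¹ : PowerSeries k) ^ 2 = C d2 := by
          rw [← map_pow, inv_pow, hZ0, inv_inv]
        have g2 : (C c : PowerSeries k) = C d2⁻¹ - C d1⁻¹ := by
          rw [hc, hY0, hZ0, map_sub]
        rw [mul_pow, g1]
        linear_combination (C d2) * hsum + C d2 * g2 + hCd2
  · intro h0
    have g0 : P = C Y0 := const_of_pow four_ne_zero hY00 hPc (by
      rw [hY0]
      exact sub_eq_zero.1 h0)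
    have g1 : Q = C Z0 := const_of_pow two_ne_zero hZ00 hQc (by
      rw [hsum, sub_eq_zero.1 h0, hc, hZ0, hY0, map_sub]
      ring)
    rw [g0, g1, ← map_pow, ← map_add, ← hC2, ← map_mul] at hQ2
    have g3 := congrArg (coeff 1) hQ2
    rw [PowerSeries.coeff_C, hU, map_add, PowerSeries.coeff_C, PowerSeries.coeff_one_X] at g3
    simp at g3

end Pool.Agent.H734R3.EL
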