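import Mathlib
import Pool.Agent.H734R3.EL.Line
import Pool.Agent.H734R3.PG.Main

/-!
# Multi-cyclic covers of Calabi-Yau or Fano type are covered by images of elliptic curves
-/

set_option autoImplicit false

namespace Pool.Agent.H734R3.EL

open MvPolynomial Pool.Agent.H734R3.LV Pool.Agent.H734R3.PG

universe u

/-- `K` is the function field of an elliptic curve over `k`, with equation
`V ^ 2 = (U - e1) * (U - e2) * (U - e3)` -/
def IsEllipticFunctionField (k K : Type u) [Field k] [Field K] [Algebra k K] : Prop :=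
  ∃ (e1 e2 e3 : k) (U V : K), e1 ≠ e2 ∧ e1 ≠ e3 ∧ e2 ≠ e3 ∧ Transcendental k U ∧
    V ^ 2 = (U - algebraMap k K e1) * (U - algebraMap k K e2) * (U - algebraMap k K e3) ∧
    IntermediateField.adjoin k {U, V} = ⊤

variable {k : Type u} [Field k] {N : ℕ}

/-- the point `P` has homogeneous coordinates in `k` -/
def IsConst (k : Type u) [Field k] {K : Type u} [Field K] [Algebra k K] {N : ℕ} (P : PP K N) :
    Prop :=
  ∃ (b : Fin (N + 1) → k) (h : (fun j => algebraMap k K (b j)) ≠ 0),
    Projectivization.mk K (fun j => algebraMap k K (b j)) h = P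

/-- The union of the images of the non-constant morphisms from elliptic curves to the projective
variety `X` is Zariski dense in `X`: outside every Zariski closed set `Δ` not containing `X` there
is a point `x` of `X` to which a point of an elliptic curve, given by its function field `K` and its
local ring `O`, is mapped by a non-constant morphism to `X`. -/
def EllipticallyCovered (X : Set (PP k N)) : Prop :=
  ∀ Δ : Set (PP k N), IsZClosed Δ → ¬ X ⊆ Δ → ∃ x ∈ X, x ∉ Δ ∧
    ∃ (K : Type u) (_ : Field K) (_ : Algebra k K) (O : ValuationSubring K),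
      IsEllipticFunctionField k K ∧ (∀ a : k, algebraMap k K a ∈ O) ∧ O ≠ ⊤ ∧
        ∃ P ∈ homs X K O x, ¬ IsConst k P

theorem ellL_isFunctionField {L : IntermediateField k (Om k)} (hL : EllL L) :
    IsEllipticFunctionField k L ∧ (∀ a : k, algebraMap k L a ∈ place L) ∧ place L ≠ ⊤ := by
  classical
  obtain ⟨e1, e2, e3, u0, V, h12, h13, h23, hV, hLs⟩ := hL
  have hUL : InL L (PowerSeries.C u0 + PowerSeries.X) := by
    rw [hLs]
    exact IntermediateField.subset_adjoin k _ (Set.mem_insert _ _)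
  have hVL : InL L V := by
    rw [hLs]
    exact IntermediateField.subset_adjoin k _ (Set.mem_insert_of_mem _ rfl)
  have hXL : InL L (PowerSeries.X : PowerSeries k) := by
    have h2 := hUL.sub (inL_C u0)
    have h3 : (PowerSeries.C u0 + PowerSeries.X - PowerSeries.C u0 : PowerSeries k) =
      PowerSeries.X := by ring
    rwa [h3] at h2
  obtain ⟨t, ht⟩ : ∃ t : L, (t : Om k) = algebraMap (PowerSeries k) (Om k) PowerSeries.X :=
    ⟨⟨_, hXL⟩, rfl⟩
  have hCa : ∀ a : k, algebraMap (PowerSeries k) (Om k) (PowerSeries.C a) =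
      algebraMap k (Om k) a := by
    intro a
    rw [IsScalarTower.algebraMap_apply k (PowerSeries k) (Om k)]
    rfl
  have htr : Transcendental k t := by
    rw [transcendental_iff]
    intro P hP
    have h1 : Polynomial.aeval (t : Om k) P = 0 := by
      have := congrArg (L.val) hP
      rw [← Polynomial.aeval_algHom_apply, map_zero] at this
      exact this
    have h2 : Polynomial.aeval (PowerSeries.X : PowerSeries k) P = 0 := by
      apply algebraMap_inj
      rw [map_zero, ← Polynomial.aeval_algebraMap_apply, ← ht, h1]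
    have h3 : Polynomial.aeval (PowerSeries.X : PowerSeries k) =
        (Polynomial.coeToPowerSeries.algHom k : Polynomial k →ₐ[k] PowerSeries k) := by
      apply Polynomial.algHom_ext
      simp
    rw [h3] at h2
    have h4 : (P : PowerSeries k) = ((0 : Polynomial k) : PowerSeries k) := by
      simpa using h2
    exact Polynomial.coe_injective _ h4
  obtain ⟨U, hU⟩ : ∃ U : L, (U : Om k) = algebraMap (PowerSeries k) (Om k)
      (PowerSeries.C u0 + PowerSeries.X) := ⟨⟨_, hUL⟩, rfl⟩
  obtain ⟨W, hW⟩ : ∃ W : L, (W : Om k) = algebraMap (PowerSeries k) (Om k) V := ⟨⟨_, hVL⟩, rfl⟩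
  refine ⟨⟨e1, e2, e3, U, W, h12, h13, h23, ?_, ?_, ?_⟩, ?_, ?_⟩
  · intro hal
    apply htr
    have h1 : t = U - algebraMap k L u0 := by
      apply Subtype.ext
      show (t : Om k) = (U : Om k) - algebraMap k (Om k) u0
      rw [hU, ht, map_add, hCa]
      ring
    rw [h1]
    exact hal.sub (isAlgebraic_algebraMap u0)
  · apply Subtype.ext
    show (W : Om k) ^ 2 = ((U : Om k) - algebraMap k (Om k) e1) *
      ((U : Om k) - algebraMap k (Om k) e2) * ((U : Om k) - algebraMap k (Om k) e3)
    rw [hW, hU, ← map_pow, hV, map_mul, map_mul, map_sub, map_sub, map_sub, hCa, hCa, hCa]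
  · apply IntermediateField.lift_injective L
    rw [IntermediateField.lift_adjoin, IntermediateField.lift_top, Set.image_pair, hU, hW]
    exact hLs.symm
  · intro a
    refine mem_place.2 ⟨PowerSeries.C a, ?_⟩
    exact hCa a
  · intro h
    have h1 : t⁻¹ ∈ place L := by
      rw [h]
      trivial
    obtain ⟨F, hF⟩ := mem_place.1 h1
    have hX0 : algebraMap (PowerSeries k) (Om k) PowerSeries.X ≠ 0 := by
      rw [Ne, map_eq_zero_iff _ algebraMap_inj]
      exact PowerSeries.X_ne_zero
    have h2 : algebraMap (PowerSeries k) (Om k) (PowerSeries.X * F) =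
        algebraMap (PowerSeries k) (Om k) 1 := by
      rw [map_mul, hF, map_one]
      push_cast
      rw [ht]
      exact mul_inv_cancel₀ hX0
    have h3 := congrArg PowerSeries.constantCoeff (algebraMap_inj h2)
    simp at h3

theorem main [IsAlgClosed k] [CharZero k] {n r : ℕ} (hn : 1 ≤ n) (m : Fin r → ℕ)
    (hm : ∀ i, 2 ≤ m i)
    (f : Fin r → MvPolynomial (Fin n) k) (e : Fin r → ℕ)
    (hdeg : ∀ i, (f i).totalDegree ≤ m i * e i) (he : ∑ i, (m i - 1) * e i ≤ n + 1)
    (hcy : ∑ i, (m i - 1) * e i = n + 1 →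
      (∃ i, e i ≠ 0 ∧ (3 ∣ m i ∨ 4 ∣ m i)) ∨ 2 ≤ ∑ i with 2 ∣ m i, e i)
    (X : Set (PP k N)) (Φ : Fin (N + 1) → MvPolynomial (Fin n ⊕ Fin r) k)
    (D : MvPolynomial (Fin n ⊕ Fin r) k) (hΦ : AlgDom m f X Φ D) : EllipticallyCovered X := by
  classical
  have hm0 : ∀ i, m i ≠ 0 := fun i => by have := hm i; omega
  intro Δ hΔ hXΔ
  -- a point of the cover mapping outside `Δ`
  obtain ⟨z0, hz0, hD0, h0, hΔ0⟩ : ∃ z ∈ Cov m f, eval z D ≠ 0 ∧ ∃ h : vec Φ z ≠ 0,
      Projectivization.mk k (vec Φ z) h ∉ Δ := by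
    by_contra hcon
    push Not at hcon
    exact hXΔ (hΦ.dense Δ hΔ fun z hz hD h => hcon z hz hD h)
  have hxX : Projectivization.mk k (vec Φ z0) h0 ∈ X := (hΦ.maps z0 hz0 hD0).2
  set p : Fin n → k := fun j => z0 (Sum.inl j) with hp
  set w0 : Fin r → k := fun i => z0 (Sum.inr i) with hw0
  have hfp : ∀ i, eval p (f i) ≠ 0 := fun i => by
    rw [← (hz0 i).2]
    exact pow_ne_zero _ (hz0 i).1
  obtain ⟨v, hv, L, hL, t, ht, ht0⟩ := EL.good_line hn m hm f e hdeg he hcy p hfp
  obtain ⟨hK, hk, htop⟩ := ellL_isFunctionField hL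
  -- the power series points
  have key : ∀ t ∈ GoodS m f p v L, ∃ z : Fin n ⊕ Fin r → PowerSeries k,
      (∀ j, z (Sum.inl j) = PowerSeries.C (p j) + t * PowerSeries.C (v j)) ∧ (∀ a, InL L (z a)) ∧
      (fun a => PowerSeries.constantCoeff (z a)) = z0 ∧
      ∀ i, z (Sum.inr i) ^ m i = aeval (fun j => z (Sum.inl j)) (f i) := by
    rintro t ⟨htL, ht0, ht⟩
    choose y hyL hy0 hy using ht
    refine ⟨Sum.elim (fun j => PowerSeries.C (p j) + t * PowerSeries.C (v j)) (fun i => PowerSeries.C (w0 i) * y i),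
      fun j => rfl, ?_, ?_, ?_⟩
    · rintro (j | i)
      · exact (inL_C _).add (htL.mul (inL_C _))
      · exact (inL_C _).mul (hyL i)
    · funext a
      rcases a with j | i
      · simp [ht0, hp]
      · simp [hy0, hw0]
    · intro i
      show (PowerSeries.C (w0 i) * y i) ^ m i = aeval (fun j => PowerSeries.C (p j) + t * PowerSeries.C (v j)) (f i)
      rw [← aeval_restr, ← hy i, mul_pow, ← map_pow]
      congr 2
      exact (hz0 i).2
  choose! Z hZ1 hZ2 hZ3 hZ4 using key
  have hZr : ∀ t ∈ GoodS m f p v L, ∀ i, Z t (Sum.inr i) ≠ 0 := by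
    intro t ht i h
    have h1 := congrFun (hZ3 t ht) (Sum.inr i)
    simp only [h, map_zero] at h1
    exact (hz0 i).1 h1.symm
  have hZD : ∀ t ∈ GoodS m f p v L, aeval (Z t) D ≠ 0 := by
    intro t ht h
    have h1 := cc_aeval (Z t) D
    rw [h, hZ3 t ht, map_zero] at h1
    exact hD0 h1.symm
  have hvan : ∀ t ∈ GoodS m f p v L, ∀ H : MvPolynomial (Fin n ⊕ Fin r) k,
      (∀ z ∈ Cov m f, eval z D ≠ 0 → eval z H = 0) → aeval (Z t) H = 0 := fun t ht H hH =>
    vanish m hm0 f D H hH (Z t) (hZ4 t ht) (hZr t ht) (hZD t ht)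
  have hpt : ∀ t ∈ GoodS m f p v L, ∃ P ∈ homs X L (place L) (Projectivization.mk k (vec Φ z0) h0),
      ∃ (W : Fin (N + 1) → L) (hW : W ≠ 0), Projectivization.mk L W hW = P ∧
        ∀ j, (W j : Om k) = algebraMap (PowerSeries k) (Om k) (aeval (Z t) (Φ j)) := by
    intro t ht
    obtain ⟨W, hWd⟩ : ∃ W : Fin (N + 1) → L, ∀ j, (W j : Om k) =
        algebraMap (PowerSeries k) (Om k) (aeval (Z t) (Φ j)) :=
      ⟨fun j => ⟨_, inL_aeval (Z t) (hZ2 t ht) (Φ j)⟩, fun j => rfl⟩
    have hccΦ : ∀ j, PowerSeries.constantCoeff (aeval (Z t) (Φ j)) = vec Φ z0 j := by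
      intro j
      rw [cc_aeval, hZ3 t ht]
      rfl
    have hW : W ≠ 0 := by
      intro h
      apply h0
      funext j
      have h1 : algebraMap (PowerSeries k) (Om k) (aeval (Z t) (Φ j)) = 0 := by
        rw [← hWd, h]
        rfl
      rw [← hccΦ, (map_eq_zero_iff _ algebraMap_inj).1 h1]
      simp
    refine ⟨_, ⟨?_, W, hW, vec Φ z0, h0, rfl, rfl, ?_⟩, W, hW, rfl, hWd⟩
    · intro d G hG hGX
      obtain ⟨a, -, ha⟩ := rep_eq W hW
      rw [ha, aeval_smul_homog hG]
      have h1 : aeval W G = 0 := by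
        apply Subtype.ext
        rw [coe_aeval W _ hWd, ← aeval_bind, hvan t ht]
        · rw [map_zero]
          rfl
        · intro z hz hD
          rw [eval_bind]
          obtain ⟨h, hX⟩ := hΦ.maps z hz hD
          exact (van_mk hG _ h).1 (hGX _ hX)
      rw [h1, mul_zero]
    · intro j
      refine place_lt (F := aeval (Z t) (Φ j) - PowerSeries.C (vec Φ z0 j)) ?_ ?_
      · rw [map_sub, ← hWd]
        show _ = (W j : Om k) - ((algebraMap k L (vec Φ z0 j) : L) : Om k)
        congr 1
      · rw [map_sub, hccΦ, PowerSeries.constantCoeff_C, sub_self]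
  obtain ⟨P, hP, W, hW, hWP, hWZ⟩ := hpt t ht
  refine ⟨_, hxX, hΔ0, L, inferInstance, inferInstance, place L, hK, hk, htop, P, hP, ?_⟩
  rintro ⟨b, hb, hbP⟩
  obtain ⟨j0, hj0⟩ : ∃ j, v j ≠ 0 := by
    by_contra h
    push Not at h
    exact hv (funext h)
  obtain ⟨l, d, Q, hQ, hQz⟩ := hΦ.alg j0
  obtain ⟨i0, hi0⟩ := (hQz z0 hz0 hD0).2
  -- compare the coordinates
  rw [← hWP] at hbP
  rw [Projectivization.mk_eq_mk_iff'] at hbP
  obtain ⟨a, ha⟩ := hbP
  have ha0 : a ≠ 0 := by
    rintro rfl
    rw [zero_smul] at ha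
    exact hb ha.symm
  have hrel : ∀ i, algebraMap k L (eval b (Q i)) = a ^ d * aeval (W) (Q i) := by
    intro i
    rw [← aeval_smul_homog (hQ i)]
    have h1 : (fun j => a * W j) = fun j => algebraMap k L (b j) := by
      funext j
      have := congrFun ha j
      simpa using this
    rw [h1]
    have h2 : aeval (fun j => algebraMap k L (b j)) (Q i) = algebraMap k L (aeval b (Q i)) :=
      (comp_aeval_apply b (Algebra.ofId k L) (Q i)).symm
    rw [h2, aeval_eq_eval]
  set x : PowerSeries k := PowerSeries.C (p j0) + t * PowerSeries.C (v j0) with hx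
  have hxL : InL L x := (inL_C _).add (ht.1.mul (inL_C _))
  have h1 : ∑ i : Fin l, aeval (W) (Q i) * (⟨_, hxL⟩ : L) ^ (i : ℕ) = 0 := by
    apply Subtype.ext
    have h2 : aeval (Z t) (∑ i : Fin l, bind₁ Φ (Q i) * MvPolynomial.X (Sum.inl j0) ^ (i : ℕ)) = 0 := by
      apply hvan t ht
      intro z hz hD
      rw [map_sum, ← (hQz z hz hD).1]
      refine Finset.sum_congr rfl fun i _ => ?_
      rw [map_mul, map_pow, eval_X, eval_bind]
    have h3 := congrArg (algebraMap (PowerSeries k) (Om k)) h2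
    rw [map_zero, map_sum, map_sum] at h3
    have h4 : ((∑ i : Fin l, aeval (W) (Q i) * (⟨_, hxL⟩ : L) ^ (i : ℕ) : L) : Om k) =
        ∑ i : Fin l, ((aeval (W) (Q i) : L) : Om k) *
          (algebraMap (PowerSeries k) (Om k) x) ^ (i : ℕ) := by
      push_cast
      rfl
    rw [h4]
    refine Eq.trans (Finset.sum_congr rfl fun i _ => ?_) h3
    rw [coe_aeval W _ hWZ, map_mul, map_mul, map_pow, map_pow, aeval_X, aeval_bind,
      hZ1 t ht]
  -- a polynomial over `k` with root `x`
  set B : Polynomial k := ∑ i : Fin l, Polynomial.C (eval b (Q i)) * Polynomial.X ^ (i : ℕ)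
    with hB
  have hB0 : B ≠ 0 := by
    intro hB0
    have h2 : B.coeff i0 = eval b (Q i0) := by
      rw [hB, Polynomial.finsetSum_coeff, Finset.sum_eq_single i0]
      · rw [Polynomial.coeff_C_mul, Polynomial.coeff_X_pow, if_pos rfl, mul_one]
      · intro b _ hb
        rw [Polynomial.coeff_C_mul, Polynomial.coeff_X_pow, if_neg, mul_zero]
        intro h
        exact hb (Fin.ext h.symm)
      · simp
    rw [hB0, Polynomial.coeff_zero] at h2
    have h3 := hrel i0
    rw [← h2, map_zero] at h3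
    have h4 : aeval W (Q i0) = 0 := (mul_eq_zero.1 h3.symm).resolve_left (pow_ne_zero _ ha0)
    have h5 := coe_aeval W _ hWZ (Q i0)
    rw [h4] at h5
    have h6 : aeval (fun j => aeval (Z t) (Φ j)) (Q i0) = 0 := by
      apply algebraMap_inj
      rw [← h5, map_zero]
      rfl
    apply hi0
    have h7 := cc_aeval (fun j => aeval (Z t) (Φ j)) (Q i0)
    rw [h6, map_zero] at h7
    rw [h7]
    congr 2
    funext j
    rw [cc_aeval, hZ3 t ht]
    rfl
  have hBx : Polynomial.aeval x B = 0 := by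
    apply algebraMap_inj
    rw [map_zero, hB, map_sum, map_sum]
    have h2 := congrArg (fun y : L => (y : Om k)) (congrArg (fun y => a ^ d * y) h1)
    simp only [mul_zero, Finset.mul_sum] at h2
    have h3 : ((0 : L) : Om k) = 0 := rfl
    rw [h3] at h2
    rw [← h2]
    push_cast
    refine Finset.sum_congr rfl fun i _ => ?_
    have h4 := congrArg (fun y : L => (y : Om k)) (hrel i)
    rw [map_mul, map_pow, Polynomial.aeval_C, Polynomial.aeval_X, map_mul, map_pow, ← mul_assoc]
    congr 1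
  have hint : IsIntegral k x := isAlgebraic_iff_isIntegral.1 ⟨B, hB0, hBx⟩
  have hdeg1 := IsAlgClosed.degree_eq_one_of_irreducible k (minpoly.irreducible hint)
  obtain ⟨y, hy⟩ := minpoly.mem_range_of_degree_eq_one k x hdeg1
  have hy' : PowerSeries.C y = x := hy
  have h5 := congrArg PowerSeries.constantCoeff hy'
  rw [hx, map_add, map_mul, ht.2.1, zero_mul, add_zero, PowerSeries.constantCoeff_C,
    PowerSeries.constantCoeff_C] at h5
  rw [h5, hx] at hy'
  have h6 : t * PowerSeries.C (v j0) = 0 := by linear_combination -hy'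
  rcases mul_eq_zero.1 h6 with h7 | h7
  · exact ht0 h7
  · apply hj0
    have := congrArg PowerSeries.constantCoeff h7
    simpa using this

end Pool.Agent.H734R3.EL
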