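import Mathlib
import Pool.Agent.H734R3.EL.Main
import Pool.Agent.H734R3.PG.Family

/-!
# Elliptic curves in families of multi-cyclic covers
-/

set_option autoImplicit false

namespace Pool.Agent.H734R3.EL

open MvPolynomial Pool.Agent.H734R3.LV Pool.Agent.H734R3.PG

universe u

variable {k : Type u} [Field k] {N : ℕ}

theorem core [IsAlgClosed k] [CharZero k] {n r : ℕ} (hn : 1 ≤ n) (m : Fin r → ℕ)
    (hm : ∀ i, 2 ≤ m i)
    (f : Fin r → MvPolynomial (Fin n) k) (e : Fin r → ℕ)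
    (hdeg : ∀ i, (f i).totalDegree ≤ m i * e i) (he : ∑ i, (m i - 1) * e i ≤ n + 1)
    (hcy : ∑ i, (m i - 1) * e i = n + 1 →
      (∃ i, e i ≠ 0 ∧ (3 ∣ m i ∨ 4 ∣ m i)) ∨ 2 ≤ ∑ i with 2 ∣ m i, e i)
    (X : Set (PP k N)) (Φ : Fin (N + 1) → MvPolynomial (Fin n ⊕ Fin r) k)
    (D : MvPolynomial (Fin n ⊕ Fin r) k)
    (hmaps : ∀ z ∈ Cov m f, eval z D ≠ 0 → ∃ h : vec Φ z ≠ 0,
      Projectivization.mk k (vec Φ z) h ∈ X)
    (halg : ∀ j : Fin n, ∃ (l d : ℕ) (Q : Fin l → MvPolynomial (Fin (N + 1)) k),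
      (∀ i, (Q i).IsHomogeneous d) ∧ ∀ z ∈ Cov m f, eval z D ≠ 0 →
        ∑ i, eval (vec Φ z) (Q i) * z (Sum.inl j) ^ (i : ℕ) = 0 ∧
          ∃ i, eval (vec Φ z) (Q i) ≠ 0)
    (z0 : Fin n ⊕ Fin r → k) (hz0 : z0 ∈ Cov m f) (hD0 : eval z0 D ≠ 0) (h0 : vec Φ z0 ≠ 0) :
    ∃ (K : Type u) (_ : Field K) (_ : Algebra k K) (O : ValuationSubring K),
      IsEllipticFunctionField k K ∧ (∀ a : k, algebraMap k K a ∈ O) ∧ O ≠ ⊤ ∧
        ∃ P ∈ homs X K O (Projectivization.mk k (vec Φ z0) h0), ¬ IsConst k P := by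
  classical
  have hm0 : ∀ i, m i ≠ 0 := fun i => by have := hm i; omega
  set p : Fin n → k := fun j => z0 (Sum.inl j) with hp
  set w0 : Fin r → k := fun i => z0 (Sum.inr i) with hw0
  have hfp : ∀ i, eval p (f i) ≠ 0 := fun i => by
    rw [← (hz0 i).2]
    exact pow_ne_zero _ (hz0 i).1
  obtain ⟨v, hv, L, hL, t, ht, ht0⟩ := EL.good_line hn m hm f e hdeg he hcy p hfp
  obtain ⟨hK, hk, htop⟩ := ellL_isFunctionField hL
  -- the power series points
  have key : ∀ t ∈ GoodS m f p v L, ∃ z : Fin n ⊕ Fin r → PowerSeries k,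
      (∀ j, z (Sum.inl j) = PowerSeries.C (p j) + t * PowerSeries.C (v j)) ∧ (∀ a, InL L (z a)) ∧
      (fun a => PowerSeries.constantCoeff (z a)) = z0 ∧
      ∀ i, z (Sum.inr i) ^ m i = aeval (fun j => z (Sum.inl j)) (f i) := by
    rintro t ⟨htL, ht0, ht⟩
    choose y hyL hy0 hy using ht
    refine ⟨Sum.elim (fun j => PowerSeries.C (p j) + t * PowerSeries.C (v j)) (fun i => PowerSeries.C (w0 i) * y i),
      fun j => rfl, ?_, ?_, ?_⟩
    · rintro (j | i)
      · exact (inL_C _).add (htL.mul (inL_C _))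
      · exact (inL_C _).mul (hyL i)
    · funext a
      rcases a with j | i
      · simp [ht0, hp]
      · simp [hy0, hw0]
    · intro i
      show (PowerSeries.C (w0 i) * y i) ^ m i = aeval (fun j => PowerSeries.C (p j) + t * PowerSeries.C (v j)) (f i)
      rw [← aeval_restr, ← hy i, mul_pow, ← map_pow]
      congr 2
      exact (hz0 i).2
  choose! Z hZ1 hZ2 hZ3 hZ4 using key
  have hZr : ∀ t ∈ GoodS m f p v L, ∀ i, Z t (Sum.inr i) ≠ 0 := by
    intro t ht i h
    have h1 := congrFun (hZ3 t ht) (Sum.inr i)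
    simp only [h, map_zero] at h1
    exact (hz0 i).1 h1.symm
  have hZD : ∀ t ∈ GoodS m f p v L, aeval (Z t) D ≠ 0 := by
    intro t ht h
    have h1 := cc_aeval (Z t) D
    rw [h, hZ3 t ht, map_zero] at h1
    exact hD0 h1.symm
  have hvan : ∀ t ∈ GoodS m f p v L, ∀ H : MvPolynomial (Fin n ⊕ Fin r) k,
      (∀ z ∈ Cov m f, eval z D ≠ 0 → eval z H = 0) → aeval (Z t) H = 0 := fun t ht H hH =>
    vanish m hm0 f D H hH (Z t) (hZ4 t ht) (hZr t ht) (hZD t ht)
  have hpt : ∀ t ∈ GoodS m f p v L, ∃ P ∈ homs X L (place L) (Projectivization.mk k (vec Φ z0) h0),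
      ∃ (W : Fin (N + 1) → L) (hW : W ≠ 0), Projectivization.mk L W hW = P ∧
        ∀ j, (W j : Om k) = algebraMap (PowerSeries k) (Om k) (aeval (Z t) (Φ j)) := by
    intro t ht
    obtain ⟨W, hWd⟩ : ∃ W : Fin (N + 1) → L, ∀ j, (W j : Om k) =
        algebraMap (PowerSeries k) (Om k) (aeval (Z t) (Φ j)) :=
      ⟨fun j => ⟨_, inL_aeval (Z t) (hZ2 t ht) (Φ j)⟩, fun j => rfl⟩
    have hccΦ : ∀ j, PowerSeries.constantCoeff (aeval (Z t) (Φ j)) = vec Φ z0 j := by
      intro j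
      rw [cc_aeval, hZ3 t ht]
      rfl
    have hW : W ≠ 0 := by
      intro h
      apply h0
      funext j
      have h1 : algebraMap (PowerSeries k) (Om k) (aeval (Z t) (Φ j)) = 0 := by
        rw [← hWd, h]
        rfl
      rw [← hccΦ, (map_eq_zero_iff _ algebraMap_inj).1 h1]
      simp
    refine ⟨_, ⟨?_, W, hW, vec Φ z0, h0, rfl, rfl, ?_⟩, W, hW, rfl, hWd⟩
    · intro d G hG hGX
      obtain ⟨a, -, ha⟩ := rep_eq W hW
      rw [ha, aeval_smul_homog hG]
      have h1 : aeval W G = 0 := by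
        apply Subtype.ext
        rw [coe_aeval W _ hWd, ← aeval_bind, hvan t ht]
        · rw [map_zero]
          rfl
        · intro z hz hD
          rw [eval_bind]
          obtain ⟨h, hX⟩ := hmaps z hz hD
          exact (van_mk hG _ h).1 (hGX _ hX)
      rw [h1, mul_zero]
    · intro j
      refine place_lt (F := aeval (Z t) (Φ j) - PowerSeries.C (vec Φ z0 j)) ?_ ?_
      · rw [map_sub, ← hWd]
        show _ = (W j : Om k) - ((algebraMap k L (vec Φ z0 j) : L) : Om k)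
        congr 1
      · rw [map_sub, hccΦ, PowerSeries.constantCoeff_C, sub_self]
  obtain ⟨P, hP, W, hW, hWP, hWZ⟩ := hpt t ht
  refine ⟨L, inferInstance, inferInstance, place L, hK, hk, htop, P, hP, ?_⟩
  rintro ⟨b, hb, hbP⟩
  obtain ⟨j0, hj0⟩ : ∃ j, v j ≠ 0 := by
    by_contra h
    push Not at h
    exact hv (funext h)
  obtain ⟨l, d, Q, hQ, hQz⟩ := halg j0
  obtain ⟨i0, hi0⟩ := (hQz z0 hz0 hD0).2
  -- compare the coordinates
  rw [← hWP] at hbP
  rw [Projectivization.mk_eq_mk_iff'] at hbP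
  obtain ⟨a, ha⟩ := hbP
  have ha0 : a ≠ 0 := by
    rintro rfl
    rw [zero_smul] at ha
    exact hb ha.symm
  have hrel : ∀ i, algebraMap k L (eval b (Q i)) = a ^ d * aeval (W) (Q i) := by
    intro i
    rw [← aeval_smul_homog (hQ i)]
    have h1 : (fun j => a * W j) = fun j => algebraMap k L (b j) := by
      funext j
      have := congrFun ha j
      simpa using this
    rw [h1]
    have h2 : aeval (fun j => algebraMap k L (b j)) (Q i) = algebraMap k L (aeval b (Q i)) :=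
      (comp_aeval_apply b (Algebra.ofId k L) (Q i)).symm
    rw [h2, aeval_eq_eval]
  set x : PowerSeries k := PowerSeries.C (p j0) + t * PowerSeries.C (v j0) with hx
  have hxL : InL L x := (inL_C _).add (ht.1.mul (inL_C _))
  have h1 : ∑ i : Fin l, aeval (W) (Q i) * (⟨_, hxL⟩ : L) ^ (i : ℕ) = 0 := by
    apply Subtype.ext
    have h2 : aeval (Z t) (∑ i : Fin l, bind₁ Φ (Q i) * MvPolynomial.X (Sum.inl j0) ^ (i : ℕ)) = 0 := by
      apply hvan t ht
      intro z hz hD
      rw [map_sum, ← (hQz z hz hD).1]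
      refine Finset.sum_congr rfl fun i _ => ?_
      rw [map_mul, map_pow, eval_X, eval_bind]
    have h3 := congrArg (algebraMap (PowerSeries k) (Om k)) h2
    rw [map_zero, map_sum, map_sum] at h3
    have h4 : ((∑ i : Fin l, aeval (W) (Q i) * (⟨_, hxL⟩ : L) ^ (i : ℕ) : L) : Om k) =
        ∑ i : Fin l, ((aeval (W) (Q i) : L) : Om k) *
          (algebraMap (PowerSeries k) (Om k) x) ^ (i : ℕ) := by
      push_cast
      rfl
    rw [h4]
    refine Eq.trans (Finset.sum_congr rfl fun i _ => ?_) h3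
    rw [coe_aeval W _ hWZ, map_mul, map_mul, map_pow, map_pow, aeval_X, aeval_bind,
      hZ1 t ht]
  -- a polynomial over `k` with root `x`
  set B : Polynomial k := ∑ i : Fin l, Polynomial.C (eval b (Q i)) * Polynomial.X ^ (i : ℕ)
    with hB
  have hB0 : B ≠ 0 := by
    intro hB0
    have h2 : B.coeff i0 = eval b (Q i0) := by
      rw [hB, Polynomial.finsetSum_coeff, Finset.sum_eq_single i0]
      · rw [Polynomial.coeff_C_mul, Polynomial.coeff_X_pow, if_pos rfl, mul_one]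
      · intro b _ hb
        rw [Polynomial.coeff_C_mul, Polynomial.coeff_X_pow, if_neg, mul_zero]
        intro h
        exact hb (Fin.ext h.symm)
      · simp
    rw [hB0, Polynomial.coeff_zero] at h2
    have h3 := hrel i0
    rw [← h2, map_zero] at h3
    have h4 : aeval W (Q i0) = 0 := (mul_eq_zero.1 h3.symm).resolve_left (pow_ne_zero _ ha0)
    have h5 := coe_aeval W _ hWZ (Q i0)
    rw [h4] at h5
    have h6 : aeval (fun j => aeval (Z t) (Φ j)) (Q i0) = 0 := by
      apply algebraMap_inj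
      rw [← h5, map_zero]
      rfl
    apply hi0
    have h7 := cc_aeval (fun j => aeval (Z t) (Φ j)) (Q i0)
    rw [h6, map_zero] at h7
    rw [h7]
    congr 2
    funext j
    rw [cc_aeval, hZ3 t ht]
    rfl
  have hBx : Polynomial.aeval x B = 0 := by
    apply algebraMap_inj
    rw [map_zero, hB, map_sum, map_sum]
    have h2 := congrArg (fun y : L => (y : Om k)) (congrArg (fun y => a ^ d * y) h1)
    simp only [mul_zero, Finset.mul_sum] at h2
    have h3 : ((0 : L) : Om k) = 0 := rfl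
    rw [h3] at h2
    rw [← h2]
    push_cast
    refine Finset.sum_congr rfl fun i _ => ?_
    have h4 := congrArg (fun y : L => (y : Om k)) (hrel i)
    rw [map_mul, map_pow, Polynomial.aeval_C, Polynomial.aeval_X, map_mul, map_pow, ← mul_assoc]
    congr 1
  have hint : IsIntegral k x := isAlgebraic_iff_isIntegral.1 ⟨B, hB0, hBx⟩
  have hdeg1 := IsAlgClosed.degree_eq_one_of_irreducible k (minpoly.irreducible hint)
  obtain ⟨y, hy⟩ := minpoly.mem_range_of_degree_eq_one k x hdeg1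
  have hy' : PowerSeries.C y = x := hy
  have h5 := congrArg PowerSeries.constantCoeff hy'
  rw [hx, map_add, map_mul, ht.2.1, zero_mul, add_zero, PowerSeries.constantCoeff_C,
    PowerSeries.constantCoeff_C] at h5
  rw [h5, hx] at hy'
  have h6 : t * PowerSeries.C (v j0) = 0 := by linear_combination -hy'
  rcases mul_eq_zero.1 h6 with h7 | h7
  · exact ht0 h7
  · apply hj0
    have := congrArg PowerSeries.constantCoeff h7
    simpa using this

theorem fmain [IsAlgClosed k] [CharZero k] {n s r : ℕ} (hn : 1 ≤ n) (m : Fin r → ℕ)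
    (hm : ∀ i, 2 ≤ m i)
    (f : Fin r → MvPolynomial (Fin n) (MvPolynomial (Fin s) k)) (e : Fin r → ℕ)
    (hdeg : ∀ i, (f i).totalDegree ≤ m i * e i) (he : ∑ i, (m i - 1) * e i ≤ n + 1)
    (hcy : ∑ i, (m i - 1) * e i = n + 1 →
      (∃ i, e i ≠ 0 ∧ (3 ∣ m i ∨ 4 ∣ m i)) ∨ 2 ≤ ∑ i with 2 ∣ m i, e i)
    (X : Set (PP k N)) (Φ : Fin (N + 1) → MvPolynomial (Fin n ⊕ Fin s ⊕ Fin r) k)
    (D : MvPolynomial (Fin n ⊕ Fin s ⊕ Fin r) k) (hΦ : FamDom m f X Φ D) :
    EllipticallyCovered X := by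
  intro Δ hΔ hXΔ
  obtain ⟨y, z, hz, hD, h, hX, hX'⟩ := hΦ.point hΔ hXΔ
  exact ⟨_, hX, hX', core hn m hm (fun i => map (eval y) (f i)) e
    (fun i => (tdeg y (f i)).trans (hdeg i)) he hcy X (fun j => spec y (Φ j)) (spec y D)
    (hΦ.maps' y) (hΦ.alg' y) z hz hD h⟩

end Pool.Agent.H734R3.EL
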